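import Pool.Agent.H3.Djr

set_option autoImplicit false

namespace Pool.Agent.Results.MP_d393fc_an.Converges

open Pool.Agent.H3.Djr MeasureTheory Set Filter

/-- Locally uniform convergence of the weighted canonical products, for both signs of the exponent
of the conjugate of `a`. -/
theorem result (ω : ℝ → ℝ) (hc : ContinuousOn ω (Ici 0)) (hp : ∀ t, 0 ≤ t → 0 < ω t)
    (hm : AntitoneOn ω (Ici 0))
    (hΔ : ∀ k : ℕ, 1 ≤ k → IntegrableOn (fun t => ω t * t ^ (k - 1)) (Ioi 0))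
    (hd : ∀ t, 0 < t → DifferentiableAt ℝ ω t)
    (hreg : AntitoneOn (fun t => t * deriv ω t / ω t) (Ioi 0))
    (s : ℤ) (hs : s = 1 ∨ s = -1) (a : ℕ → ℂ) (ha : ∀ k, a k ≠ 0)
    (hsum : Summable (fun k => LL ω ‖a k‖)) :
    (∀ (n : ℕ) (z : ℂ), Summable (fun k => term ω s z (a n) (k + 1))) ∧
    ∀ K : Set ℂ, IsCompact K → ∃ P : ℂ → ℂ,
      TendstoUniformlyOn (fun n z => ∏ k ∈ Finset.range n, AA ω s z (a k)) P atTop K ∧
      ∀ z ∈ K, (∀ k, z ≠ a k) → P z ≠ 0 := by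
  have h : Good ω := ⟨hc, hp, hm, fun k => by simpa using hΔ (k + 1) (by omega), hd, hreg⟩
  exact ⟨fun n z => term_sum h s (ha n) z, fun K hK => main h hs a ha hsum K hK⟩

end Pool.Agent.Results.MP_d393fc_an.Converges
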